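import Pool.Agent.H14.RF.Power

/-!
# Growth bounds for the degrees of smoothable covers of powers
-/

open TensorProduct Module

namespace Pool.Agent.H14.RF

open Pool.Agent.H15.Defect

universe u

section bd

variable (k : Type u) [Field k] (A : Type u) [CommRing A] [Algebra k A]

/-- The `n`-th power of `Spec A` lies in a smoothable scheme of degree `O(ρ ^ n)`, for every
`ρ > r`. -/
def Bd (r : ℝ) : Prop :=
  ∀ ρ : ℝ, r < ρ → ∃ C : ℝ, ∀ n : ℕ, ∃ N : ℕ, Dle k (⨂[k] _ : Fin n, A) N ∧ (N : ℝ) ≤ C * ρ ^ n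

variable {k A}

theorem Bd.mono {r s : ℝ} (h : Bd k A r) (hrs : r ≤ s) : Bd k A s :=
  fun ρ hρ => h ρ (lt_of_le_of_lt hrs hρ)

theorem exists_surjective_map {B : Type u} [CommRing B] [Algebra k B] (f : A →ₐ[k] B)
    (hf : Function.Surjective f) (n : ℕ) :
    ∃ F : (⨂[k] _ : Fin n, A) →ₐ[k] (⨂[k] _ : Fin n, B), Function.Surjective F := by
  refine ⟨prodHom fun i => (PiTensorProduct.singleAlgHom (R := k)
    (A := fun _ : Fin n => B) i).comp f, surjective_of_single _ fun i b => ?_⟩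
  obtain ⟨a, rfl⟩ := hf b
  refine ⟨PiTensorProduct.singleAlgHom (R := k) (A := fun _ : Fin n => A) i a, ?_⟩
  rw [prodHom_single]
  rfl

theorem Bd.of_surjective {B : Type u} [CommRing B] [Algebra k B] {r : ℝ} (h : Bd k A r)
    (f : A →ₐ[k] B) (hf : Function.Surjective f) : Bd k B r := by
  intro ρ hρ
  obtain ⟨C, hC⟩ := h ρ hρ
  refine ⟨C, fun n => ?_⟩
  obtain ⟨N, hN, hle⟩ := hC n
  obtain ⟨F, hF⟩ := exists_surjective_map f hf n
  exact ⟨N, hN.of_surjective F hF, hle⟩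

end bd

section prod

variable {k : Type u} [Field k] {A B : Type u} [CommRing A] [Algebra k A] [CommRing B]
  [Algebra k B]

theorem dle_tensor_left {X Y Z : Type u} [CommRing X] [Algebra k X] [CommRing Y] [Algebra k Y]
    [CommRing Z] [Algebra k Z] {N : ℕ} (h : Dle k (X ⊗[k] Z) N) (f : X →ₐ[k] Y)
    (hf : Function.Surjective f) : Dle k (Y ⊗[k] Z) N :=
  h.of_surjective (Algebra.TensorProduct.map f (AlgHom.id k Z))
    (TensorProduct.map_surjective hf Function.surjective_id)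

theorem dle_tensor_right {X Y Z : Type u} [CommRing X] [Algebra k X] [CommRing Y] [Algebra k Y]
    [CommRing Z] [Algebra k Z] {N : ℕ} (h : Dle k (Z ⊗[k] X) N) (f : X →ₐ[k] Y)
    (hf : Function.Surjective f) : Dle k (Z ⊗[k] Y) N :=
  h.of_surjective (Algebra.TensorProduct.map (AlgHom.id k Z) f)
    (TensorProduct.map_surjective Function.surjective_id hf)

section abs

variable {S S' R R' E E' : Type u} [CommRing S] [Algebra k S] [CommRing S'] [Algebra k S']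
  [CommRing R] [Algebra k R] [CommRing R'] [Algebra k R']
  [CommRing E] [Algebra k E] [CommRing E'] [Algebra k E']

theorem dle_abs_left {N : ℕ} (F : S' →ₐ[k] A ⊗[k] S) (hF : Function.Surjective F)
    (h : Dle k ((S' ⊗[k] R) ⊗[k] E) N) : Dle k (((S ⊗[k] R) ⊗[k] E) ⊗[k] A) N := by
  have h1 := dle_tensor_left h (Algebra.TensorProduct.map F (AlgHom.id k R))
    (TensorProduct.map_surjective hF Function.surjective_id)
  have h2 := dle_tensor_left h1 (Algebra.TensorProduct.assoc k k k A S R).toAlgHom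
    (AlgEquiv.surjective _)
  have h3 : Dle k (A ⊗[k] ((S ⊗[k] R) ⊗[k] E)) N :=
    h2.of_equiv (Algebra.TensorProduct.assoc k k k A (S ⊗[k] R) E)
  have h4 : Dle k (((S ⊗[k] R) ⊗[k] E) ⊗[k] A) N :=
    h3.of_equiv (Algebra.TensorProduct.comm k A ((S ⊗[k] R) ⊗[k] E))
  exact h4

theorem dle_abs_right {N : ℕ} (F : R' →ₐ[k] B ⊗[k] R) (hF : Function.Surjective F)
    (h : Dle k ((S ⊗[k] R') ⊗[k] E) N) : Dle k (((S ⊗[k] R) ⊗[k] E) ⊗[k] B) N := by
  have h1 := dle_tensor_left h (Algebra.TensorProduct.comm k S R').toAlgHom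
    (AlgEquiv.surjective _)
  have h2 := dle_abs_left F hF h1
  have h3 : Function.Surjective (Algebra.TensorProduct.map
      (Algebra.TensorProduct.comm k R S).toAlgHom (AlgHom.id k E)) :=
    TensorProduct.map_surjective (AlgEquiv.surjective _) Function.surjective_id
  exact dle_tensor_left h2 _ h3

theorem dle_abs_succ {N N' : ℕ} (F : S' →ₐ[k] A ⊗[k] S) (hF : Function.Surjective F)
    (G : R' →ₐ[k] B ⊗[k] R) (hG : Function.Surjective G)
    (H : (A × B) ⊗[k] E →ₐ[k] E') (hH : Function.Surjective H)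
    (h : Dle k ((S' ⊗[k] R) ⊗[k] E) N) (h' : Dle k ((S ⊗[k] R') ⊗[k] E) N') :
    Dle k ((S ⊗[k] R) ⊗[k] E') (N + N') := by
  have h1 := (dle_abs_left F hF h).prod (dle_abs_right G hG h')
  have h2 : Dle k (((S ⊗[k] R) ⊗[k] E) ⊗[k] (A × B)) (N + N') := h1.of_equiv
    (Algebra.TensorProduct.prodRight k k ((S ⊗[k] R) ⊗[k] E) A B).symm
  have h3 : Dle k ((S ⊗[k] R) ⊗[k] (E ⊗[k] (A × B))) (N + N') :=
    h2.of_equiv (Algebra.TensorProduct.assoc k k k (S ⊗[k] R) E (A × B))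
  have h4 := dle_tensor_right h3 (Algebra.TensorProduct.comm k E (A × B)).toAlgHom
    (AlgEquiv.surjective _)
  exact dle_tensor_right h4 H hH

end abs

/-- `⨂^s A ⊗ ⨂^t B ⊗ ⨂^n (A × B)` -/
abbrev T (k A B : Type u) [Field k] [CommRing A] [Algebra k A] [CommRing B]
    [Algebra k B] (s t n : ℕ) : Type u :=
  ((⨂[k] _ : Fin s, A) ⊗[k] (⨂[k] _ : Fin t, B)) ⊗[k] (⨂[k] _ : Fin n, A × B)

theorem dle_T_succ {s t n N N' : ℕ} (h : Dle k (T k A B (s + 1) t n) N)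
    (h' : Dle k (T k A B s (t + 1) n) N') : Dle k (T k A B s t (n + 1)) (N + N') := by
  obtain ⟨F, hF⟩ := exists_surjective_succ (k := k) (A := A) s
  obtain ⟨G, hG⟩ := exists_surjective_succ (k := k) (A := B) t
  exact dle_abs_succ F hF G hG (consHom k (A × B) n) (consHom_surjective n) h h'

theorem T_bound {a b CA CB : ℝ}
    (hA : ∀ n : ℕ, ∃ N : ℕ, Dle k (⨂[k] _ : Fin n, A) N ∧ (N : ℝ) ≤ CA * a ^ n)
    (hB : ∀ n : ℕ, ∃ N : ℕ, Dle k (⨂[k] _ : Fin n, B) N ∧ (N : ℝ) ≤ CB * b ^ n) (n : ℕ) :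
    ∀ s t : ℕ, ∃ N : ℕ, Dle k (T k A B s t n) N ∧
      (N : ℝ) ≤ CA * CB * a ^ s * b ^ t * (a + b) ^ n := by
  induction n with
  | zero =>
    intro s t
    obtain ⟨N, hN, hNle⟩ := hA s
    obtain ⟨N', hN', hNle'⟩ := hB t
    have h0 : Dle k (⨂[k] _ : Fin 0, A × B) 1 :=
      (dle_self k).of_surjective (Algebra.ofId k _) fun z => exists_eq_algebraMap z
    refine ⟨N * N' * 1, (hN.tensor hN').tensor h0, ?_⟩
    push_cast
    rw [mul_one, pow_zero, mul_one]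
    calc (N : ℝ) * N' ≤ (CA * a ^ s) * (CB * b ^ t) :=
          mul_le_mul hNle hNle' (Nat.cast_nonneg _) ((Nat.cast_nonneg _).trans hNle)
      _ = _ := by ring
  | succ n ih =>
    intro s t
    obtain ⟨N, hN, hNle⟩ := ih (s + 1) t
    obtain ⟨N', hN', hNle'⟩ := ih s (t + 1)
    refine ⟨N + N', dle_T_succ hN hN', ?_⟩
    push_cast
    calc (N : ℝ) + N' ≤ _ := add_le_add hNle hNle'
      _ = _ := by ring

theorem Bd.prod {r s : ℝ} (hA : Bd k A r) (hB : Bd k B s) :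
    Bd k (A × B) (r + s) := by
  intro ρ hρ
  obtain ⟨CA, hCA⟩ := hA (r + (ρ - (r + s)) / 2) (by linarith)
  obtain ⟨CB, hCB⟩ := hB (s + (ρ - (r + s)) / 2) (by linarith)
  refine ⟨CA * CB, fun n => ?_⟩
  obtain ⟨N, hN, hle⟩ := T_bound hCA hCB n 0 0
  refine ⟨N, ?_, ?_⟩
  · have h0 : Dle k (T k A B 0 0 n) N := hN
    refine h0.of_surjective (Algebra.TensorProduct.productMap
      ((Algebra.ofId k (⨂[k] _ : Fin n, A × B)).comp (Algebra.TensorProduct.productMap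
        (prodHom (B := k) (fun i : Fin 0 => i.elim0)) (prodHom (B := k) (fun i : Fin 0 => i.elim0))))
        (AlgHom.id k _)) ?_
    intro z
    refine ⟨1 ⊗ₜ z, ?_⟩
    rw [Algebra.TensorProduct.productMap_apply_tmul, map_one, one_mul]
    rfl
  · rw [pow_zero, pow_zero, mul_one, mul_one] at hle
    convert! hle using 2
    ring

end prod

section reduce

variable {k : Type u} [Field k] {A : Type u} [CommRing A] [Algebra k A] [Module.Finite k A]

/-- An elementary estimate. -/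
theorem exists_pow_lt {τ r ρ : ℝ} (hτ : 0 ≤ τ) (hr : 0 < r) (hρ : r < ρ) (c : ℕ) :
    ∃ m : ℕ, 0 < m ∧ (2 * ((m * c + 1 : ℕ) : ℝ) ^ 2) ^ τ * r ^ m < ρ ^ m := by
  obtain ⟨K, hK⟩ := exists_nat_ge τ
  have hρ0 : 0 < ρ := hr.trans hρ
  have h1 := tendsto_pow_const_mul_const_pow_of_abs_lt_one (2 * K) (r := r / ρ) (by
    rw [abs_of_pos (by positivity), div_lt_one hρ0]; exact hρ)
  have h2 := h1.const_mul ((2 * (c + 1 : ℝ) ^ 2) ^ K)
  rw [mul_zero] at h2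
  obtain ⟨m, hm1, hm2⟩ := ((h2.eventually (gt_mem_nhds one_pos)).and
    (Filter.eventually_ge_atTop 1)).exists
  refine ⟨m, by omega, ?_⟩
  have hm : (1 : ℝ) ≤ m := by exact_mod_cast hm2
  have h3 : (2 * ((m * c + 1 : ℕ) : ℝ) ^ 2) ≤ 2 * (c + 1 : ℝ) ^ 2 * m ^ 2 := by
    push_cast
    have : (m * c + 1 : ℝ) ≤ (c + 1) * m := by nlinarith
    have h4 : (m * c + 1 : ℝ) ^ 2 ≤ ((c + 1) * m) ^ 2 := by gcongr
    calc 2 * (m * c + 1 : ℝ) ^ 2 ≤ 2 * ((c + 1) * m) ^ 2 := by gcongr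
      _ = _ := by ring
  have h5 : (2 * ((m * c + 1 : ℕ) : ℝ) ^ 2) ^ τ ≤ (2 * (c + 1 : ℝ) ^ 2 * m ^ 2) ^ K := by
    have h6 : (1 : ℝ) ≤ 2 * (c + 1 : ℝ) ^ 2 * m ^ 2 := by
      have h7 : (1 : ℝ) ≤ (c + 1 : ℝ) ^ 2 := one_le_pow₀ (by linarith [Nat.cast_nonneg (α := ℝ) c])
      have h8 : (1 : ℝ) ≤ (m : ℝ) ^ 2 := one_le_pow₀ hm
      nlinarith
    calc (2 * ((m * c + 1 : ℕ) : ℝ) ^ 2) ^ τ ≤ (2 * (c + 1 : ℝ) ^ 2 * m ^ 2) ^ τ :=
          Real.rpow_le_rpow (by positivity) h3 hτ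
      _ ≤ (2 * (c + 1 : ℝ) ^ 2 * m ^ 2) ^ (K : ℝ) := Real.rpow_le_rpow_of_exponent_le h6 hK
      _ = _ := Real.rpow_natCast _ _
  have h9 : (2 * (c + 1 : ℝ) ^ 2 * m ^ 2) ^ K * r ^ m < ρ ^ m := by
    have h10 : (2 * (c + 1 : ℝ) ^ 2) ^ K * ((m : ℝ) ^ (2 * K) * (r / ρ) ^ m) < 1 := hm1
    rw [div_pow] at h10
    have h11 : 0 < ρ ^ m := by positivity
    calc (2 * (c + 1 : ℝ) ^ 2 * m ^ 2) ^ K * r ^ m =
          ((2 * (c + 1 : ℝ) ^ 2) ^ K * ((m : ℝ) ^ (2 * K) * (r ^ m / ρ ^ m))) * ρ ^ m := by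
            rw [mul_pow, ← pow_mul]; field_simp
      _ < 1 * ρ ^ m := by gcongr
      _ = _ := one_mul _
  calc (2 * ((m * c + 1 : ℕ) : ℝ) ^ 2) ^ τ * r ^ m ≤
        (2 * (c + 1 : ℝ) ^ 2 * m ^ 2) ^ K * r ^ m := by gcongr
    _ < _ := h9

variable (k A) in
theorem finrank_power (n : ℕ) : finrank k (⨂[k] _ : Fin n, A) = finrank k A ^ n := by
  classical
  rw [finrank_eq_card_basis (Basis.piTensorProduct (fun _ : Fin n => Module.finBasis k A))]
  simp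

/-- Reduction of local algebras to forms. -/
theorem Bd.of_forms {τ : ℝ} (hτ : 0 ≤ τ)
    (H : ∀ (n c : ℕ) (φ : MvPolynomial (Fin n) k →ₗ[k] k), IsForm φ c → φ ≠ 0 →
      Bd k (FormAlg φ) ((finrank k (FormAlg φ) : ℝ) ^ τ)) {c : ℕ} (hA : Aug k A c) :
    Bd k A ((finrank k A : ℝ) ^ τ) := by
  intro ρ hρ
  obtain ⟨α, hα⟩ := id hA
  have : Nontrivial A := by
    refine ⟨0, 1, fun h => ?_⟩
    have := congrArg α h
    rw [map_zero, map_one] at this
    exact zero_ne_one this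
  have hd : 0 < (finrank k A : ℝ) := by exact_mod_cast Module.finrank_pos
  have hd1 : (1 : ℝ) ≤ (finrank k A : ℝ) := by exact_mod_cast Module.finrank_pos (R := k) (M := A)
  have hρ1 : 1 < ρ := lt_of_le_of_lt (Real.one_le_rpow hd1 hτ) hρ
  obtain ⟨m, hm, hlt⟩ := exists_pow_lt hτ (Real.rpow_pos_of_pos hd τ) hρ c
  obtain ⟨αm, hαm⟩ := hA.pow m
  obtain ⟨n, φ, hφ, hφ0, ⟨γ, hγ⟩, hle⟩ := exists_form_cover αm hαm
  rw [finrank_power] at hle
  have hlt' : (finrank k (FormAlg φ) : ℝ) ^ τ < ρ ^ m := by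
    refine lt_of_le_of_lt ?_ hlt
    have h1 : (finrank k (FormAlg φ) : ℝ) ≤
        2 * ((m * c + 1 : ℕ) : ℝ) ^ 2 * (finrank k A : ℝ) ^ m := by
      calc (finrank k (FormAlg φ) : ℝ) ≤
            ((2 * ((m * c + 1) ^ 2 * finrank k A ^ m) : ℕ) : ℝ) := by exact_mod_cast hle
        _ = _ := by push_cast; ring
    calc (finrank k (FormAlg φ) : ℝ) ^ τ ≤
          (2 * ((m * c + 1 : ℕ) : ℝ) ^ 2 * (finrank k A : ℝ) ^ m) ^ τ :=
          Real.rpow_le_rpow (Nat.cast_nonneg _) h1 hτ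
      _ = (2 * ((m * c + 1 : ℕ) : ℝ) ^ 2) ^ τ * ((finrank k A : ℝ) ^ τ) ^ m := by
          rw [Real.mul_rpow (by positivity) (by positivity)]
          congr 1
          rw [← Real.rpow_natCast (finrank k A : ℝ) m, ← Real.rpow_mul hd.le, mul_comm,
            Real.rpow_mul hd.le, Real.rpow_natCast]
  obtain ⟨C, hC⟩ := H n _ φ hφ hφ0 (ρ ^ m) hlt'
  refine ⟨C * ρ ^ m, fun N => ?_⟩
  obtain ⟨D, hD, hDle⟩ := hC (N / m + 1)
  obtain ⟨F, hF⟩ := exists_surjective_pow_mul γ hγ (N / m + 1)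
  have hN : N ≤ (N / m + 1) * m := by
    have := Nat.div_add_mod N m
    have := Nat.mod_lt N hm
    nlinarith
  obtain ⟨F', hF'⟩ := exists_surjective_pow_le α hN
  refine ⟨D, (hD.of_surjective F hF).of_surjective F' hF', hDle.trans ?_⟩
  have hC0 : 0 ≤ C := by
    have h0 : 0 ≤ C * (ρ ^ m) ^ (N / m + 1) := (Nat.cast_nonneg _).trans hDle
    exact nonneg_of_mul_nonneg_left h0 (by positivity)
  have h2 : (ρ ^ m) ^ (N / m + 1) ≤ ρ ^ m * ρ ^ N := by
    rw [← pow_mul, ← pow_add]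
    apply pow_le_pow_right₀ hρ1.le
    have := Nat.div_mul_le_self N m
    nlinarith
  calc C * (ρ ^ m) ^ (N / m + 1) ≤ C * (ρ ^ m * ρ ^ N) := by gcongr
    _ = _ := by ring

end reduce

end Pool.Agent.H14.RF
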