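import Pool.Agent.H14.RF.Defs

/-!
# Every local algebra is a quotient of a small apolar algebra of a form
-/

open MvPolynomial Module

namespace Pool.Agent.H14.RF

section abs

variable {k : Type*} [Field k] {ι : Type*} {R : Type*} [CommRing R] [Algebra k R]
  {Q : Type*} [Fintype Q] (Θ : MvPolynomial ι k →ₐ[k] R) (y : Q → ι) (ψ : Q → R →ₗ[k] k)

/-- The functional `g ↦ ∑ q, ψ q (Θ (∂ g / ∂ y q))`. -/
noncomputable def mkForm : MvPolynomial ι k →ₗ[k] k :=
  ∑ q, ψ q ∘ₗ Θ.toLinearMap ∘ₗ (pderiv (R := k) (y q)).toLinearMap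

theorem mkForm_apply (g : MvPolynomial ι k) :
    mkForm Θ y ψ g = ∑ q, ψ q (Θ (pderiv (y q) g)) := by
  simp [mkForm]

theorem mkForm_mul (g h : MvPolynomial ι k) :
    mkForm Θ y ψ (g * h) =
      ∑ q, ψ q (Θ (pderiv (y q) h) * Θ g) + ∑ q, ψ q (Θ (pderiv (y q) g) * Θ h) := by
  rw [mkForm_apply, ← Finset.sum_add_distrib]
  refine Finset.sum_congr rfl fun q _ => ?_
  rw [Derivation.leibniz, smul_eq_mul, smul_eq_mul, map_add, map_add, map_mul Θ, map_mul Θ,
    mul_comm (Θ g), mul_comm (Θ h)]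

variable {W : Type*} [AddCommGroup W] [Module k W] [Module.Finite k W] (T : R →ₗ[k] W)
  (τ : W →ₗ[k] R)

theorem finrank_mkForm_le (h : ∀ q u v, ψ q (u * v) = ψ q (u * τ (T v))) :
    finrank k (FormAlg (mkForm Θ y ψ)) ≤ 2 * finrank k W := by
  let Ψ₂ : MvPolynomial ι k →ₗ[k] Module.Dual k W :=
    ∑ q, LinearMap.lcomp k k τ ∘ₗ
      ((LinearMap.llcomp k R R k (ψ q)) ∘ₗ (LinearMap.mul k R) ∘ₗ Θ.toLinearMap ∘ₗ
        (pderiv (R := k) (y q)).toLinearMap)
  have hΨ₂ : ∀ g w, Ψ₂ g w = ∑ q, ψ q (Θ (pderiv (y q) g) * τ w) := by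
    intro g w
    simp [Ψ₂]
  let Ψ : MvPolynomial ι k →ₗ[k] W × Module.Dual k W := (T ∘ₗ Θ.toLinearMap).prod Ψ₂
  have hΨ : LinearMap.ker Ψ ≤ (annIdeal (mkForm Θ y ψ)).restrictScalars k := by
    intro g hg
    rw [Submodule.restrictScalars_mem, mem_annIdeal]
    intro p
    have h1 : T (Θ g) = 0 := congrArg Prod.fst (LinearMap.mem_ker.mp hg)
    have h2 : Ψ₂ g = 0 := congrArg Prod.snd (LinearMap.mem_ker.mp hg)
    rw [mkForm_mul]
    have e1 : ∑ q, ψ q (Θ (pderiv (y q) p) * Θ g) = 0 := by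
      refine Finset.sum_eq_zero fun q _ => ?_
      rw [h, h1, map_zero, mul_zero, map_zero]
    have e2 : ∑ q, ψ q (Θ (pderiv (y q) g) * Θ p) = 0 := by
      have := LinearMap.congr_fun h2 (T (Θ p))
      rw [hΨ₂] at this
      rw [LinearMap.zero_apply] at this
      rw [← this]
      refine Finset.sum_congr rfl fun q _ => ?_
      rw [h]
    rw [e1, e2, add_zero]
  have hle : finrank k (FormAlg (mkForm Θ y ψ)) ≤ finrank k (MvPolynomial ι k ⧸ LinearMap.ker Ψ) := by
    have h1 : Module.Finite k (MvPolynomial ι k ⧸ LinearMap.ker Ψ) :=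
      Module.Finite.equiv Ψ.quotKerEquivRange.symm
    refine LinearMap.finrank_le_finrank_of_surjective
      (f := Submodule.liftQ (LinearMap.ker Ψ)
        (Ideal.Quotient.mkₐ k (annIdeal (mkForm Θ y ψ))).toLinearMap ?_) ?_
    · intro g hg
      have := hΨ hg
      rw [Submodule.restrictScalars_mem] at this
      simpa [LinearMap.mem_ker, Ideal.Quotient.eq_zero_iff_mem] using this
    · intro x
      obtain ⟨g, rfl⟩ := Ideal.Quotient.mk_surjective x
      exact ⟨Submodule.Quotient.mk g, rfl⟩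
  refine hle.trans ?_
  rw [LinearEquiv.finrank_eq Ψ.quotKerEquivRange]
  refine (Submodule.finrank_le _).trans ?_
  rw [Module.finrank_prod, Subspace.dual_finrank_eq]
  omega

end abs

section trunc

variable {k : Type*} [Field k] {A : Type*} [CommRing A] [Algebra k A]

/-- the exponent `(p, q)` -/
noncomputable def ex (p q : ℕ) : Fin 2 →₀ ℕ := Finsupp.single 0 p + Finsupp.single 1 q

@[simp] theorem ex_zero (p q : ℕ) : ex p q 0 = p := by simp [ex]

@[simp] theorem ex_one (p q : ℕ) : ex p q 1 = q := by simp [ex]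

theorem ex_degree (p q : ℕ) : (ex p q).degree = p + q := by
  rw [ex, map_add, Finsupp.degree_single, Finsupp.degree_single]

theorem eq_ex (m : Fin 2 →₀ ℕ) : m = ex (m 0) (m 1) := by
  ext i
  fin_cases i <;> simp

theorem ex_inj {p q p' q' : ℕ} (h : ex p q = ex p' q') : p = p' ∧ q = q' := by
  constructor
  · simpa using DFunLike.congr_fun h 0
  · simpa using DFunLike.congr_fun h 1

variable (k A) in
/-- the coefficients with exponents less than `c` -/
noncomputable def tr (c : ℕ) : MvPolynomial (Fin 2) A →ₗ[k] (Fin c × Fin c → A) :=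
  LinearMap.pi fun x => (MvPolynomial.lcoeff A (ex x.1 x.2)).restrictScalars k

theorem tr_apply (c : ℕ) (u : MvPolynomial (Fin 2) A) (x : Fin c × Fin c) :
    tr k A c u x = coeff (ex x.1 x.2) u := by
  simp [tr]

variable (k A) in
/-- the polynomial with given coefficients -/
noncomputable def ta (c : ℕ) : (Fin c × Fin c → A) →ₗ[k] MvPolynomial (Fin 2) A :=
  ∑ x : Fin c × Fin c, ((monomial (R := A) (ex x.1 x.2)).restrictScalars k) ∘ₗ
    LinearMap.proj x

theorem ta_apply (c : ℕ) (w : Fin c × Fin c → A) :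
    ta k A c w = ∑ x : Fin c × Fin c, monomial (ex x.1 x.2) (w x) := by
  simp [ta]

theorem coeff_ta_tr (c : ℕ) (u : MvPolynomial (Fin 2) A) {m : Fin 2 →₀ ℕ} (h0 : m 0 < c)
    (h1 : m 1 < c) : coeff m (ta k A c (tr k A c u)) = coeff m u := by
  rw [ta_apply, coeff_sum]
  simp only [coeff_monomial, tr_apply]
  rw [Finset.sum_eq_single (⟨⟨m 0, h0⟩, ⟨m 1, h1⟩⟩ : Fin c × Fin c)]
  · rw [if_pos]
    · rw [← eq_ex]
    · exact (eq_ex m).symm
  · intro x _ hx
    rw [if_neg]
    intro hm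
    apply hx
    rw [eq_ex m] at hm
    obtain ⟨e0, e1⟩ := ex_inj hm
    ext
    · exact e0
    · exact e1
  · intro h
    exact absurd (Finset.mem_univ _) h

theorem coeff_mul_ta_tr (c : ℕ) (u v : MvPolynomial (Fin 2) A) {m : Fin 2 →₀ ℕ} (h0 : m 0 < c)
    (h1 : m 1 < c) : coeff m (u * v) = coeff m (u * ta k A c (tr k A c v)) := by
  classical
  rw [coeff_mul, coeff_mul]
  refine Finset.sum_congr rfl fun x hx => ?_
  rw [Finset.HasAntidiagonal.mem_antidiagonal] at hx
  congr 1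
  rw [coeff_ta_tr]
  · rw [← hx] at h0
    simp only [Finsupp.coe_add, Pi.add_apply] at h0
    omega
  · rw [← hx] at h1
    simp only [Finsupp.coe_add, Pi.add_apply] at h1
    omega

end trunc

end Pool.Agent.H14.RF
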