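import Pool.Agent.H14.RF.Cover

/-!
# Every local algebra is a quotient of a small apolar algebra of a form, II
-/

open MvPolynomial Module

namespace Pool.Agent.H14.RF

/-- the set of variables -/
abbrev Vars (d c : ℕ) : Type := Fin d ⊕ (Unit ⊕ (Fin d × Fin c))

section val

variable {k : Type*} [Field k] {A : Type*} [CommRing A] [Algebra k A] {ι : Type*} {d c : ℕ}
  (e : ι ≃ Vars d c) (x : Fin d → A)

/-- values of the variables -/
noncomputable def val : Vars d c → MvPolynomial (Fin 2) A
  | Sum.inl i => C (x i) * X 0
  | Sum.inr (Sum.inl _) => X 1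
  | Sum.inr (Sum.inr _) => 0

theorem val_isHomogeneous (v : Vars d c) : (val x v).IsHomogeneous 1 := by
  rcases v with i | u | q
  · exact isHomogeneous_C_mul_X _ _
  · exact isHomogeneous_X _ _
  · exact isHomogeneous_zero _ _ _

variable (k) in
/-- the ring homomorphism `Θ` -/
noncomputable def Th : MvPolynomial ι k →ₐ[k] MvPolynomial (Fin 2) A :=
  aeval (fun i => val x (e i))

theorem Th_X_z : Th k e x (X (e.symm (Sum.inr (Sum.inl ())))) = X 1 := by
  simp [Th, val]

theorem Th_X_y (q : Fin d × Fin c) : Th k e x (X (e.symm (Sum.inr (Sum.inr q)))) = 0 := by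
  simp [Th, val]

theorem Th_isHomogeneous {g : MvPolynomial ι k} {n : ℕ} (hg : g.IsHomogeneous n) :
    (Th k e x g).IsHomogeneous n := by
  have := hg.aeval (fun i => val x (e i)) (fun i => val_isHomogeneous x (e i))
  rwa [one_mul] at this

/-- substitution `X 0 = 1`, `X 1 = 0` -/
noncomputable def ev : MvPolynomial (Fin 2) A →ₐ[A] A := aeval ![1, 0]

variable (k) in
/-- the homomorphism `π` -/
noncomputable def pr : MvPolynomial ι k →ₐ[k] A :=
  (ev.restrictScalars k).comp (Th k e x)

theorem pr_X (i : Fin d) : pr k e x (X (e.symm (Sum.inl i))) = x i := by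
  simp [pr, Th, val, ev]

/-- The coefficients of `Θ g` lie in powers of an ideal. -/
theorem coeff_Th_mem (I : Ideal A) (hx : ∀ i, x i ∈ I) (g : MvPolynomial ι k) (m : Fin 2 →₀ ℕ) :
    coeff m (Th k e x g) ∈ I ^ m 0 := by
  classical
  induction g using MvPolynomial.induction_on generalizing m with
  | C a =>
    rw [← algebraMap_eq, AlgHom.commutes, IsScalarTower.algebraMap_apply k A, algebraMap_eq,
      coeff_C]
    split_ifs with h
    · rw [← h]; simp
    · exact zero_mem _
  | add p q hp hq =>
    rw [map_add, coeff_add]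
    exact add_mem (hp m) (hq m)
  | mul_X p i hp =>
    rw [map_mul]
    have : Th k e x (X i) = val x (e i) := by simp [Th]
    rw [this]
    rcases e i with j | u | q
    · rw [val, mul_left_comm, coeff_C_mul, coeff_mul_X']
      split_ifs with h
      · have h1 := hp (m - Finsupp.single 0 1)
        rw [Finsupp.tsub_apply, Finsupp.single_eq_same] at h1
        have h2 : m 0 = (m 0 - 1) + 1 := by
          have := Finsupp.mem_support_iff.mp h
          omega
        rw [h2, pow_succ']
        exact Ideal.mul_mem_mul (hx j) h1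
      · rw [mul_zero]; exact zero_mem _
    · rw [val, coeff_mul_X']
      split_ifs with h
      · have h1 := hp (m - Finsupp.single 1 1)
        rw [Finsupp.tsub_apply, Finsupp.single_eq_of_ne (by decide), Nat.sub_zero] at h1
        exact h1
      · exact zero_mem _
    · rw [val, mul_zero, coeff_zero]
      exact zero_mem _

end val

section cover

variable {k : Type*} [Field k] {A : Type*} [CommRing A] [Algebra k A] {ι : Type*} {d c : ℕ}
  (e : ι ≃ Vars d c) (x : Fin d → A) (b : Basis (Fin d) k A)

/-- the functionals -/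
noncomputable def psi (q : Fin d × Fin c) : MvPolynomial (Fin 2) A →ₗ[k] k :=
  b.coord q.1 ∘ₗ (MvPolynomial.lcoeff A (ex q.2 (c - 1 - q.2))).restrictScalars k

theorem psi_apply (q : Fin d × Fin c) (u : MvPolynomial (Fin 2) A) :
    psi b q u = b.coord q.1 (coeff (ex q.2 (c - 1 - q.2)) u) := by
  simp [psi]

/-- The form. -/
noncomputable def theForm : MvPolynomial ι k →ₗ[k] k :=
  mkForm (Th k e x) (fun q => e.symm (Sum.inr (Sum.inr q))) (psi b)

theorem theForm_isForm : IsForm (theForm e x b) c := by
  intro m hm
  rw [theForm, mkForm_apply]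
  refine Finset.sum_eq_zero fun q _ => ?_
  have hc : 0 < c := lt_of_le_of_lt (Nat.zero_le _) q.2.isLt
  rcases Nat.eq_zero_or_pos m.degree with h0 | h0
  · have : m = 0 := by rwa [Finsupp.degree_eq_zero_iff] at h0
    subst this
    have h1 : (monomial (0 : ι →₀ ℕ) (1 : k)) = 1 := rfl
    rw [h1, Derivation.map_one_eq_zero, map_zero, map_zero]
  · have h1 : (monomial m (1 : k)).IsHomogeneous m.degree := isHomogeneous_monomial _ rfl
    have h2 := Th_isHomogeneous e x (h1.pderiv (i := e.symm (Sum.inr (Sum.inr q))))
    rw [psi_apply, h2.coeff_eq_zero, map_zero]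
    rw [ex_degree]
    have := q.2.isLt
    omega

theorem finrank_theForm_le [Module.Finite k A] :
    finrank k (FormAlg (theForm e x b)) ≤ 2 * (c ^ 2 * finrank k A) := by
  have h := finrank_mkForm_le (Th k e x) (fun q => e.symm (Sum.inr (Sum.inr q))) (psi b)
    (tr k A c) (ta k A c) (by
      intro q u v
      rw [psi_apply, psi_apply, coeff_mul_ta_tr (k := k) c u v]
      · rw [ex_zero]; exact q.2.isLt
      · rw [ex_one]
        have := q.2.isLt
        omega)
  refine h.trans (le_of_eq ?_)
  rw [Module.finrank_pi_fintype, Finset.sum_const, Finset.card_univ, Fintype.card_prod,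
    Fintype.card_fin, smul_eq_mul, sq]

theorem pr_eq_zero (I : Ideal A) (hx : ∀ i, x i ∈ I) (hI : I ^ c = ⊥) {g : MvPolynomial ι k}
    (hg : g ∈ annIdeal (theForm e x b)) : pr k e x g = 0 := by
  classical
  have hcoeff : ∀ j, coeff (ex j 0) (Th k e x g) = 0 := by
    intro j
    by_cases hj : j < c
    · apply b.forall_coord_eq_zero_iff.mp
      intro l
      have h1 := hg (X (e.symm (Sum.inr (Sum.inl ()))) ^ (c - 1 - j) *
        X (e.symm (Sum.inr (Sum.inr (l, ⟨j, hj⟩)))))
      rw [theForm, mkForm_mul] at h1
      have h2 : ∀ (q : Fin d × Fin c) , Th k e x (X (e.symm (Sum.inr (Sum.inl ()))) ^ (c - 1 - j) *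
          X (e.symm (Sum.inr (Sum.inr q)))) = 0 := by
        intro q
        rw [map_mul, Th_X_y, mul_zero]
      simp only [h2, mul_zero, map_zero, Finset.sum_const_zero, add_zero] at h1
      rw [Finset.sum_eq_single (l, ⟨j, hj⟩)] at h1
      · have h4 : pderiv (e.symm (Sum.inr (Sum.inr (l, (⟨j, hj⟩ : Fin c)))))
            ((X (e.symm (Sum.inr (Sum.inl ()))) ^ (c - 1 - j) *
              X (e.symm (Sum.inr (Sum.inr (l, ⟨j, hj⟩)))) : MvPolynomial ι k)) =
            X (e.symm (Sum.inr (Sum.inl ()))) ^ (c - 1 - j) := by
          have h5 : pderiv (e.symm (Sum.inr (Sum.inr (l, (⟨j, hj⟩ : Fin c)))))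
            (X (e.symm (Sum.inr (Sum.inl ()))) : MvPolynomial ι k) = 0 := by
            apply pderiv_X_of_ne
            intro h
            have := e.symm.injective h
            simp at this
          rw [Derivation.leibniz, pderiv_X_self, Derivation.leibniz_pow, h5]
          simp
        rw [h4, map_pow, Th_X_z, psi_apply, X_pow_eq_monomial, mul_comm] at h1
        have h3 : ex j (c - 1 - j) = ex j 0 + Finsupp.single 1 (c - 1 - j) := by
          simp [ex]
        simp only [h3] at h1
        rw [coeff_mul_monomial, mul_one] at h1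
        exact h1
      · intro q _ hq
        rw [Derivation.leibniz, pderiv_X_of_ne, Derivation.leibniz_pow, pderiv_X_of_ne]
        · simp
        · intro h
          have := e.symm.injective h
          simp at this
        · intro h
          have := e.symm.injective h
          simp at this
          exact hq this.symm
      · intro h
        exact absurd (Finset.mem_univ _) h
    · have h1 := coeff_Th_mem (k := k) e x I hx g (ex j 0)
      rw [ex_zero] at h1
      have h2 := Ideal.pow_le_pow_right (I := I) (not_lt.mp hj) h1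
      rw [hI] at h2
      simpa using h2
  change aeval ![1, 0] (Th k e x g) = 0
  rw [aeval_def, eval₂_eq']
  refine Finset.sum_eq_zero fun m _ => ?_
  rw [Fin.prod_univ_two]
  rcases Nat.eq_zero_or_pos (m 1) with h | h
  · have : m = ex (m 0) 0 := by
      have := eq_ex m
      rwa [h] at this
    rw [this, hcoeff, map_zero, zero_mul]
  · simp [h.ne']

end cover

/-- **Small apolar covers**: every finite algebra `A` with a `k`-point whose ideal `I` satisfies
`I ^ c = 0` is a quotient of the apolar algebra of a form of degree `c`, of dimension at most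
`2 c ^ 2 dim A`. -/
theorem exists_form_cover {k : Type*} [Field k] {A : Type*} [CommRing A] [Algebra k A]
    [Module.Finite k A] (α : A →ₐ[k] k) {c : ℕ} (hc : RingHom.ker α ^ c = ⊥) :
    ∃ (n : ℕ) (φ : MvPolynomial (Fin n) k →ₗ[k] k), IsForm φ c ∧ φ ≠ 0 ∧
      (∃ f : FormAlg φ →ₐ[k] A, Function.Surjective f) ∧
      finrank k (FormAlg φ) ≤ 2 * (c ^ 2 * finrank k A) := by
  let b := Module.finBasis k A
  let e : Fin (Fintype.card (Vars (finrank k A) c)) ≃ Vars (finrank k A) c :=
    (Fintype.equivFin _).symm
  let x : Fin (finrank k A) → A := fun i => b i - algebraMap k A (α (b i))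
  have hx : ∀ i, x i ∈ RingHom.ker α := by
    intro i
    rw [RingHom.mem_ker, map_sub, AlgHom.commutes]
    simp
  let f : FormAlg (theForm e x b) →ₐ[k] A :=
    Ideal.Quotient.liftₐ _ (pr k e x) (fun g hg => pr_eq_zero e x b _ hx hc hg)
  have hf : Function.Surjective f := by
    have h1 : ∀ g, f (Ideal.Quotient.mk _ g) = pr k e x g := fun g => rfl
    have h2 : (f.range : Set A) = Set.univ := by
      have : f.range.toSubmodule = ⊤ := by
        rw [← top_le_iff, ← b.span_eq, Submodule.span_le]
        rintro _ ⟨i, rfl⟩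
        change b i ∈ f.range
        have h3 : b i = x i + algebraMap k A (α (b i)) := by simp [x]
        rw [h3]
        refine add_mem ?_ (Subalgebra.algebraMap_mem _ _)
        rw [← pr_X (k := k) e x i, ← h1]
        exact ⟨_, rfl⟩
      have h4 : (f.range.toSubmodule : Set A) = Set.univ := by rw [this]; rfl
      exact h4
    intro a
    have : a ∈ (f.range : Set A) := h2 ▸ Set.mem_univ a
    exact this
  refine ⟨_, theForm e x b, theForm_isForm e x b, ?_, ⟨f, hf⟩, finrank_theForm_le e x b⟩
  intro h0
  have h1 : (1 : MvPolynomial (Fin (Fintype.card (Vars (finrank k A) c))) k) ∈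
      annIdeal (theForm e x b) := by
    intro g
    rw [h0, LinearMap.zero_apply]
  have h2 : f (Ideal.Quotient.mk _ 1) = 0 := by
    rw [Ideal.Quotient.eq_zero_iff_mem.mpr h1, map_zero]
  rw [map_one, map_one] at h2
  have h3 := congrArg α h2
  rw [map_one, map_zero] at h3
  exact one_ne_zero h3

end Pool.Agent.H14.RF
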