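import Mathlib

/-!
# Apolar algebras of forms
-/

open MvPolynomial Module

namespace Pool.Agent.H14.RF

section defs

variable {k : Type*} [Field k] {σ : Type*}

/-- The ideal of all polynomials `g` such that `φ (g h) = 0` for all polynomials `h`; here `φ` is a
linear functional on a polynomial ring. -/
def annIdeal (φ : MvPolynomial σ k →ₗ[k] k) : Ideal (MvPolynomial σ k) where
  carrier := {g | ∀ h, φ (g * h) = 0}
  add_mem' := fun {a b} ha hb h => by rw [add_mul, map_add, ha h, hb h, add_zero]
  zero_mem' := fun h => by rw [zero_mul, map_zero]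
  smul_mem' := fun c {x} hx h => by
    rw [smul_eq_mul, show c * x * h = x * (c * h) by ring]; exact hx _

/-- The functional `φ` is given by a form of degree `c` (in divided powers): it vanishes on all
monomials whose degree is not `c`. -/
def IsForm (φ : MvPolynomial σ k →ₗ[k] k) (c : ℕ) : Prop :=
  ∀ m : σ →₀ ℕ, m.degree ≠ c → φ (monomial m 1) = 0

/-- The apolar algebra of `φ`. -/
abbrev FormAlg (φ : MvPolynomial σ k →ₗ[k] k) : Type _ := MvPolynomial σ k ⧸ annIdeal φ

end defs

variable {k : Type*} [Field k] {σ : Type*}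

theorem mem_annIdeal {φ : MvPolynomial σ k →ₗ[k] k} {g : MvPolynomial σ k} :
    g ∈ annIdeal φ ↔ ∀ h, φ (g * h) = 0 := Iff.rfl

theorem mem_annIdeal_iff_monomial {φ : MvPolynomial σ k →ₗ[k] k} {g : MvPolynomial σ k} :
    g ∈ annIdeal φ ↔ ∀ m : σ →₀ ℕ, φ (g * monomial m 1) = 0 := by
  refine ⟨fun h m => h _, fun h => ?_⟩
  have : φ ∘ₗ LinearMap.mulLeft k g = 0 := by
    refine MvPolynomial.linearMap_ext fun m => LinearMap.ext_ring ?_
    simpa using h m
  intro p
  exact LinearMap.congr_fun this p

theorem IsForm.apply_mul_monomial {φ : MvPolynomial σ k →ₗ[k] k} {c : ℕ} (hφ : IsForm φ c)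
    (g : MvPolynomial σ k) {m : σ →₀ ℕ} (hm : c < m.degree) : φ (g * monomial m 1) = 0 := by
  have : φ ∘ₗ LinearMap.mulRight k (monomial m (1 : k)) = 0 := by
    refine MvPolynomial.linearMap_ext fun m' => LinearMap.ext_ring ?_
    simp only [LinearMap.coe_comp, Function.comp_apply, LinearMap.mulRight_apply,
      LinearMap.zero_comp, LinearMap.zero_apply, monomial_mul, mul_one]
    refine hφ _ ?_
    rw [map_add]
    omega
  exact LinearMap.congr_fun this g

/-- The apolar algebra of a form is finite dimensional. -/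
theorem IsForm.finite [Finite σ] {φ : MvPolynomial σ k →ₗ[k] k} {c : ℕ} (hφ : IsForm φ c) :
    Module.Finite k (FormAlg φ) := by
  have hfin := Finsupp.finite_of_degree_le (σ := σ) c
  have := hfin.to_subtype
  let L : MvPolynomial σ k →ₗ[k] ({f : σ →₀ ℕ | f.degree ≤ c} → k) :=
    LinearMap.pi fun m => φ ∘ₗ LinearMap.mulRight k (monomial m.1 (1 : k))
  have hL : LinearMap.ker L ≤ (annIdeal φ).restrictScalars k := by
    intro g hg
    rw [Submodule.restrictScalars_mem, mem_annIdeal_iff_monomial]
    intro m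
    by_cases hm : m.degree ≤ c
    · have := congr_fun (LinearMap.mem_ker.mp hg) ⟨m, hm⟩
      simpa [L] using this
    · exact hφ.apply_mul_monomial g (by omega)
  have h1 : Module.Finite k (MvPolynomial σ k ⧸ LinearMap.ker L) :=
    Module.Finite.equiv L.quotKerEquivRange.symm
  refine Module.Finite.of_surjective
    (Submodule.liftQ (LinearMap.ker L) (Ideal.Quotient.mkₐ k (annIdeal φ)).toLinearMap ?_) ?_
  · intro g hg
    have := hL hg
    rw [Submodule.restrictScalars_mem] at this
    simpa [LinearMap.mem_ker, Ideal.Quotient.eq_zero_iff_mem] using this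
  · intro x
    obtain ⟨g, rfl⟩ := Ideal.Quotient.mk_surjective x
    exact ⟨Submodule.Quotient.mk g, rfl⟩

theorem nontrivial_formAlg {φ : MvPolynomial σ k →ₗ[k] k} (hφ : φ ≠ 0) :
    Nontrivial (FormAlg φ) := by
  rw [Ideal.Quotient.nontrivial_iff]
  intro h
  apply hφ
  refine LinearMap.ext fun g => ?_
  have : (1 : MvPolynomial σ k) ∈ annIdeal φ := h ▸ Submodule.mem_top
  simpa using this g

end Pool.Agent.H14.RF
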