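import Pool.Agent.H14.RF.Bound
import Pool.Agent.H14.MM.GrowthDefs
import Pool.Agent.H15.Defect.DefNat

/-!
# The growth of the smoothability defect
-/

open TensorProduct Module Filter Topology
open scoped ENNReal

namespace Pool.Agent.H14.RF

open Pool.Agent.H12.Defect Pool.Agent.H15.Defect Pool.Agent.H14.MM

universe u

section alg

variable {k : Type u} [Field k] {A : Type u} [CommRing A] [Algebra k A] [Module.Finite k A]
  [Nontrivial A]

/-- Over an algebraically closed field, every nonzero finite algebra has a point. -/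
theorem exists_point [IsAlgClosed k] : Nonempty (A →ₐ[k] k) := by
  obtain ⟨M, hM⟩ := Ideal.exists_maximal A
  let _ := Ideal.Quotient.field M
  have hfin : Module.Finite k (A ⧸ M) := Module.Finite.of_surjective
    (Ideal.Quotient.mkₐ k M).toLinearMap Ideal.Quotient.mk_surjective
  have hbij : Function.Bijective (algebraMap k (A ⧸ M)) :=
    IsAlgClosed.algebraMap_bijective_of_isIntegral
  let e : k ≃ₐ[k] (A ⧸ M) := AlgEquiv.ofBijective (Algebra.ofId k (A ⧸ M)) hbij
  exact ⟨(e.symm : (A ⧸ M) →ₐ[k] k).comp (Ideal.Quotient.mkₐ k M)⟩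

omit [Module.Finite k A] in
theorem dle_of_finrank_eq_one (h : finrank k A = 1) (n : ℕ) : Dle k (⨂[k] _ : Fin n, A) 1 := by
  have h1 : Dle k A 1 := by
    refine (dle_self k).of_surjective (Algebra.ofId k A) fun a => ?_
    obtain ⟨c, hc⟩ := (finrank_eq_one_iff_of_nonzero' (1 : A) one_ne_zero).mp h a
    exact ⟨c, by rw [← hc, Algebra.ofId_apply, Algebra.algebraMap_eq_smul_one]⟩
  have := h1.pow n
  rwa [one_pow] at this

theorem defect_eq_zero_of_finrank_eq_one (h : finrank k A = 1) (n : ℕ) :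
    defect k (⨂[k] _ : Fin n, A) = 0 := by
  obtain ⟨h1, -, h2⟩ := defect_eq (dle_of_finrank_eq_one (A := A) h n)
  rw [finrank_power, h, one_pow] at h2
  have h3 : (defect k (⨂[k] _ : Fin n, A)).toNat = 0 := by omega
  rw [← ENat.natCast_toNat h1, h3]
  rfl

theorem exists_dle_of_ne_top {B : Type u} [CommRing B] [Algebra k B] (h : defect k B ≠ ⊤) :
    ∃ N, Dle k B N := by
  by_contra hne
  push Not at hne
  apply h
  rw [defect, iInf_eq_top]
  intro δ
  rw [iInf_eq_top]
  intro hδ
  exact absurd (finrank_add_le_of_mem hδ) (hne _)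

/-- Growth bounds give limits. -/
theorem Bd.tendsto {ε₀ : ℝ} (h : Bd k A ((finrank k A : ℝ) ^ (1 + ε₀))) {ε : ℝ}
    (hε : ε₀ < ε) : Tendsto (growthRatio k A ε) atTop (𝓝 0) := by
  have hd : 0 < finrank k A := Module.finrank_pos
  rcases Nat.lt_or_ge 1 (finrank k A) with hd2 | hd2
  · have hd1 : (1 : ℝ) < finrank k A := by exact_mod_cast hd2
    have hd0 : (0 : ℝ) < finrank k A := by linarith
    set d : ℝ := ((finrank k A : ℕ) : ℝ) with hdd
    obtain ⟨C, hC⟩ := h (d ^ (1 + (ε₀ + ε) / 2)) (Real.rpow_lt_rpow_of_exponent_lt hd1 (by linarith))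
    set ρ : ℝ := d ^ (1 + (ε₀ + ε) / 2) with hρ
    have hρ0 : 0 < ρ := Real.rpow_pos_of_pos hd0 _
    have hq0 : 0 < d ^ (1 + ε) := Real.rpow_pos_of_pos hd0 _
    have hq : ρ < d ^ (1 + ε) := Real.rpow_lt_rpow_of_exponent_lt hd1 (by linarith)
    have h1 : Tendsto (fun n : ℕ => C * (ρ / d ^ (1 + ε)) ^ n) atTop (𝓝 (C * 0)) :=
      (tendsto_pow_atTop_nhds_zero_of_lt_one (by positivity)
        ((div_lt_one hq0).mpr hq)).const_mul C
    rw [mul_zero] at h1
    have h2 := ENNReal.tendsto_ofReal h1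
    rw [ENNReal.ofReal_zero] at h2
    refine tendsto_of_tendsto_of_tendsto_of_le_of_le tendsto_const_nhds h2 (fun _ => bot_le) ?_
    intro n
    obtain ⟨N, hN, hle⟩ := hC n
    obtain ⟨hne, -, h3⟩ := defect_eq hN
    have hpn : (0 : ℝ) < d ^ ((1 + ε) * n) := Real.rpow_pos_of_pos hd0 _
    have h4 : C * (ρ / d ^ (1 + ε)) ^ n = (C * ρ ^ n) / d ^ ((1 + ε) * n) := by
      rw [div_pow, Real.rpow_mul hd0.le, Real.rpow_natCast]
      ring
    show growthRatio k A ε n ≤ ENNReal.ofReal (C * (ρ / d ^ (1 + ε)) ^ n)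
    rw [h4, ENNReal.ofReal_div_of_pos hpn, growthRatio]
    apply ENNReal.div_le_div_right
    rw [← ENat.natCast_toNat hne]
    calc (((defect k (⨂[k] _ : Fin n, A)).toNat : ℕ∞) : ℝ≥0∞) =
          ENNReal.ofReal ((defect k (⨂[k] _ : Fin n, A)).toNat : ℝ) := by
            rw [ENNReal.ofReal_natCast]; simp
      _ ≤ _ := by
          apply ENNReal.ofReal_le_ofReal
          refine le_trans ?_ hle
          exact_mod_cast (by omega)
  · have hd1 : finrank k A = 1 := by omega
    have : growthRatio k A ε = fun _ => 0 := by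
      funext n
      rw [growthRatio, defect_eq_zero_of_finrank_eq_one hd1]
      simp
    rw [this]
    exact tendsto_const_nhds

/-- Limits give growth bounds. -/
theorem Bd.of_tendsto {ε₀ : ℝ} (hε₀ : 0 ≤ ε₀) (α : A →ₐ[k] k)
    (h : ∀ ε, ε₀ < ε → Tendsto (growthRatio k A ε) atTop (𝓝 0)) :
    Bd k A ((finrank k A : ℝ) ^ (1 + ε₀)) := by
  intro ρ hρ
  have hd : 0 < finrank k A := Module.finrank_pos
  rcases Nat.lt_or_ge 1 (finrank k A) with hd2 | hd2
  · have hd1 : (1 : ℝ) < finrank k A := by exact_mod_cast hd2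
    have hd0 : (0 : ℝ) < finrank k A := by linarith
    set d : ℝ := ((finrank k A : ℕ) : ℝ) with hdd
    have hρd : d ≤ ρ := by
      refine le_trans ?_ hρ.le
      calc d = d ^ (1 : ℝ) := (Real.rpow_one d).symm
        _ ≤ _ := Real.rpow_le_rpow_of_exponent_le hd1.le (by linarith)
    have hρ1 : 1 < ρ := by linarith
    have hlogd : 0 < Real.log d := Real.log_pos hd1
    set ε : ℝ := Real.log ρ / Real.log d - 1 with hε
    have h1 : ε₀ < ε := by
      rw [hε, lt_sub_iff_add_lt, lt_div_iff₀ hlogd, add_comm, ← Real.log_rpow hd0]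
      exact Real.log_lt_log (Real.rpow_pos_of_pos hd0 _) hρ
    have h2 : d ^ (1 + ε) = ρ := by
      rw [hε, Real.rpow_def_of_pos hd0]
      rw [show Real.log d * (1 + (Real.log ρ / Real.log d - 1)) = Real.log ρ by
        field_simp; ring]
      exact Real.exp_log (by linarith)
    have h3 : ∀ᶠ n in atTop, growthRatio k A ε n < 1 :=
      (h ε h1).eventually (gt_mem_nhds (by simp))
    obtain ⟨n₀, hn₀⟩ := h3.exists_forall_of_atTop
    have h4 : ∀ n ≥ n₀, ∃ N : ℕ, Dle k (⨂[k] _ : Fin n, A) N ∧ (N : ℝ) ≤ 2 * ρ ^ n := by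
      intro n hn
      have h5 := hn₀ n hn
      have hpn : (0 : ℝ) < d ^ ((1 + ε) * n) := Real.rpow_pos_of_pos hd0 _
      have h6 : d ^ ((1 + ε) * n) = ρ ^ n := by
        rw [Real.rpow_mul hd0.le, Real.rpow_natCast, h2]
      rw [growthRatio, ← hdd, h6] at h5
      have h7 : ((defect k (⨂[k] _ : Fin n, A) : ℕ∞) : ℝ≥0∞) ≤ ENNReal.ofReal (ρ ^ n) := by
        by_contra hcon
        push Not at hcon
        have h8 : 1 ≤ ((defect k (⨂[k] _ : Fin n, A) : ℕ∞) : ℝ≥0∞) / ENNReal.ofReal (ρ ^ n) := by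
          rw [ENNReal.le_div_iff_mul_le (Or.inl (by
            rw [Ne, ENNReal.ofReal_eq_zero, not_le]; positivity)) (Or.inl ENNReal.ofReal_ne_top),
            one_mul]
          exact hcon.le
        exact absurd h5 (not_lt.mpr h8)
      have h9 : defect k (⨂[k] _ : Fin n, A) ≠ ⊤ := by
        intro htop
        rw [htop] at h7
        simp at h7
      obtain ⟨N, hN⟩ := exists_dle_of_ne_top h9
      refine ⟨_, dle_defect hN, ?_⟩
      rw [finrank_power]
      rw [← ENat.natCast_toNat h9] at h7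
      have h10 : ((defect k (⨂[k] _ : Fin n, A)).toNat : ℝ) ≤ ρ ^ n := by
        have h11 : (((defect k (⨂[k] _ : Fin n, A)).toNat : ℕ∞) : ℝ≥0∞) =
          ENNReal.ofReal ((defect k (⨂[k] _ : Fin n, A)).toNat : ℝ) := by
            rw [ENNReal.ofReal_natCast]; simp
        rw [h11] at h7
        exact (ENNReal.ofReal_le_ofReal_iff (by positivity)).mp h7
      push_cast
      rw [← hdd]
      have h12 : d ^ n ≤ ρ ^ n := pow_le_pow_left₀ hd0.le hρd n
      linarith
    refine ⟨2 * ρ ^ n₀, fun n => ?_⟩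
    rcases Nat.lt_or_ge n n₀ with hn | hn
    · obtain ⟨N, hN, hle⟩ := h4 n₀ le_rfl
      obtain ⟨F, hF⟩ := exists_surjective_pow_le α hn.le
      refine ⟨N, hN.of_surjective F hF, hle.trans ?_⟩
      have : 1 ≤ ρ ^ n := one_le_pow₀ hρ1.le
      have h13 : 0 ≤ 2 * ρ ^ n₀ := by positivity
      nlinarith
    · obtain ⟨N, hN, hle⟩ := h4 n hn
      refine ⟨N, hN, hle.trans ?_⟩
      have h14 : 1 ≤ ρ ^ n₀ := one_le_pow₀ hρ1.le
      have h15 : 0 ≤ ρ ^ n := by positivity
      nlinarith
  · have hd1 : finrank k A = 1 := by omega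
    refine ⟨1, fun n => ⟨1, dle_of_finrank_eq_one hd1 n, ?_⟩⟩
    rw [hd1, Nat.cast_one, Real.one_rpow] at hρ
    have := one_le_pow₀ hρ.le (n := n)
    push_cast
    linarith

end alg

section general

variable {k : Type u} [Field k] [IsAlgClosed k]

/-- The growth bound for all algebras from the growth bound for local algebras. -/
theorem Bd.of_local {τ : ℝ} (hτ : 1 ≤ τ)
    (H : ∀ (A : Type u) [CommRing A] [Algebra k A] [Module.Finite k A] (c : ℕ), Aug k A c →
      Bd k A ((finrank k A : ℝ) ^ τ)) :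
    ∀ (d : ℕ) (A : Type u) [CommRing A] [Algebra k A] [Module.Finite k A] [Nontrivial A],
      finrank k A ≤ d → Bd k A ((finrank k A : ℝ) ^ τ) := by
  intro d
  induction d with
  | zero =>
    intro A _ _ _ _ h
    have := Module.finrank_pos (R := k) (M := A)
    omega
  | succ d ih =>
    intro A _ _ _ _ hA
    obtain ⟨α⟩ := exists_point (k := k) (A := A)
    by_cases hnil : ∃ c, RingHom.ker α ^ c = ⊥
    · obtain ⟨c, hc⟩ := hnil
      exact H A c ⟨α, hc⟩
    have hart : IsArtinianRing A := IsArtinianRing.of_finite k A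
    have hnoeth : IsNoetherianRing A := inferInstance
    -- the powers of the kernel stabilise
    obtain ⟨n, hn⟩ := IsArtinian.monotone_stabilizes (R := A) (M := A)
      ⟨fun n => OrderDual.toDual (RingHom.ker α ^ n), fun a b hab => Ideal.pow_le_pow_right hab⟩
    have hn' : ∀ m, n ≤ m → RingHom.ker α ^ n = RingHom.ker α ^ m := hn
    set J : Ideal A := RingHom.ker α ^ (n + 1) with hJ
    have hJJ : IsIdempotentElem J := by
      show J * J = J
      rw [hJ, ← pow_add, ← hn' (n + 1) (by omega), ← hn' _ (by omega)]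
    obtain ⟨e, he, hJe⟩ := (Ideal.isIdempotentElem_iff_of_fg J (IsNoetherian.noetherian J)).mp hJJ
    have he0 : e ≠ 0 := by
      rintro rfl
      apply hnil
      refine ⟨n + 1, ?_⟩
      rw [← hJ, hJe]
      simp
    have heα : α e = 0 := by
      have h1 : e ∈ J := by rw [hJe]; exact Ideal.mem_span_singleton_self e
      have h2 : J ≤ RingHom.ker α := Ideal.pow_le_self (by omega)
      exact h2 h1
    let E := AlgEquiv.prodQuotientOfIsIdempotentElem k he he.one_sub (by ring)
      (by rw [mul_sub, mul_one, he.eq, sub_self])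
    have hnt1 : Nontrivial (A ⧸ Ideal.span {e}) := by
      rw [Ideal.Quotient.nontrivial_iff]
      intro h
      have h1 : Ideal.span {e} ≤ RingHom.ker α := by
        rw [Ideal.span_singleton_le_iff_mem]; exact heα
      rw [h, top_le_iff] at h1
      have h2 : (1 : A) ∈ RingHom.ker α := h1 ▸ Submodule.mem_top
      rw [RingHom.mem_ker, map_one] at h2
      exact one_ne_zero h2
    have hnt2 : Nontrivial (A ⧸ Ideal.span {1 - e}) := by
      rw [Ideal.Quotient.nontrivial_iff]
      intro h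
      rw [Ideal.span_singleton_eq_top] at h
      have h1 : e * (1 - e) = 0 := by rw [mul_sub, mul_one, he.eq, sub_self]
      exact he0 ((IsUnit.mul_left_eq_zero h).mp h1)
    have hf1 : Module.Finite k (A ⧸ Ideal.span {e}) := Module.Finite.of_surjective
      (Ideal.Quotient.mkₐ k _).toLinearMap Ideal.Quotient.mk_surjective
    have hf2 : Module.Finite k (A ⧸ Ideal.span {1 - e}) := Module.Finite.of_surjective
      (Ideal.Quotient.mkₐ k _).toLinearMap Ideal.Quotient.mk_surjective
    have hfr : finrank k A = finrank k (A ⧸ Ideal.span {e}) + finrank k (A ⧸ Ideal.span {1 - e}) := by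
      rw [← Module.finrank_prod]
      exact LinearEquiv.finrank_eq E.toLinearEquiv
    have hp1 := Module.finrank_pos (R := k) (M := A ⧸ Ideal.span {e})
    have hp2 := Module.finrank_pos (R := k) (M := A ⧸ Ideal.span {1 - e})
    have hB1 := ih (A ⧸ Ideal.span {e}) (by omega)
    have hB2 := ih (A ⧸ Ideal.span {1 - e}) (by omega)
    have hB := (hB1.prod hB2).of_surjective (E.symm : _ →ₐ[k] A) E.symm.surjective
    refine hB.mono ?_
    rw [hfr]
    push_cast
    exact Real.add_rpow_le_rpow_add (Nat.cast_nonneg _) (Nat.cast_nonneg _) hτ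

end general

end Pool.Agent.H14.RF
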