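import Pool.Agent.H15.Defect.Pow
import Pool.Agent.H14.RF.Cover2

/-!
# Homomorphisms from tensor powers
-/

open TensorProduct Module

namespace Pool.Agent.H14.RF

open Pool.Agent.H15.Defect

section prodHom

variable {k : Type*} [Field k] {A B : Type*} [CommRing A] [Algebra k A] [CommRing B] [Algebra k B]
  {ι : Type*} [Fintype ι]

/-- The homomorphism `⨂ A → B` given by homomorphisms `A → B`. -/
noncomputable def prodHom (f : ι → A →ₐ[k] B) : (⨂[k] _ : ι, A) →ₐ[k] B :=
  PiTensorProduct.liftAlgHom
    ((MultilinearMap.mkPiAlgebra k ι B).compLinearMap (fun i => (f i).toLinearMap))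
    (by simp) (by
      intro x y
      simp [Finset.prod_mul_distrib])

theorem prodHom_tprod (f : ι → A →ₐ[k] B) (x : ι → A) :
    prodHom f (PiTensorProduct.tprod k x) = ∏ i, f i (x i) := by
  simp [prodHom]

theorem prodHom_single [DecidableEq ι] (f : ι → A →ₐ[k] B) (i : ι) (a : A) :
    prodHom f (PiTensorProduct.singleAlgHom (R := k) (A := fun _ : ι => A) i a) = f i a := by
  rw [PiTensorProduct.singleAlgHom_apply, prodHom_tprod, Finset.prod_eq_single i]
  · simp
  · intro j _ hj
    rw [MonoidHom.mulSingle_apply, Pi.mulSingle_eq_of_ne hj, map_one]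
  · intro h; exact absurd (Finset.mem_univ _) h

/-- A homomorphism to a tensor power whose image contains all `1 ⊗ ⋯ ⊗ a ⊗ ⋯ ⊗ 1` is
surjective. -/
theorem surjective_of_single [DecidableEq ι] (F : B →ₐ[k] (⨂[k] _ : ι, A))
    (h : ∀ i a, ∃ b, F b = PiTensorProduct.singleAlgHom (R := k) (A := fun _ : ι => A) i a) :
    Function.Surjective F := by
  choose g hg using h
  intro z
  induction z using PiTensorProduct.induction_on with
  | smul_tprod r x =>
    refine ⟨r • ∏ i, g i (x i), ?_⟩
    rw [map_smul, map_prod]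
    simp only [hg, PiTensorProduct.singleAlgHom_apply, MonoidHom.mulSingle_apply]
    rw [← PiTensorProduct.tprod_prod, Finset.univ_prod_mulSingle]
  | add x y hx hy =>
    obtain ⟨x', rfl⟩ := hx
    obtain ⟨y', rfl⟩ := hy
    exact ⟨x' + y', map_add _ _ _⟩

end prodHom

section maps

variable {k : Type*} [Field k] {A : Type*} [CommRing A] [Algebra k A]

/-- An algebra with a `k`-point has surjections from its powers to its smaller powers. -/
theorem exists_surjective_pow_le (α : A →ₐ[k] k) {n m : ℕ} (h : n ≤ m) :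
    ∃ F : (⨂[k] _ : Fin m, A) →ₐ[k] (⨂[k] _ : Fin n, A), Function.Surjective F := by
  refine ⟨prodHom fun i => if hi : i.1 < n then PiTensorProduct.singleAlgHom (R := k)
    (A := fun _ : Fin n => A) ⟨i, hi⟩ else (Algebra.ofId k _).comp α,
    surjective_of_single _ fun i a => ?_⟩
  refine ⟨PiTensorProduct.singleAlgHom (R := k) (A := fun _ : Fin m => A) (Fin.castLE h i) a, ?_⟩
  rw [prodHom_single, dif_pos (by simp)]
  rfl

/-- Powers of covers of powers. -/
theorem exists_surjective_pow_mul {G : Type*} [CommRing G] [Algebra k G] {m : ℕ}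
    (γ : G →ₐ[k] (⨂[k] _ : Fin m, A)) (hγ : Function.Surjective γ) (j : ℕ) :
    ∃ F : (⨂[k] _ : Fin j, G) →ₐ[k] (⨂[k] _ : Fin (j * m), A), Function.Surjective F := by
  refine ⟨prodHom fun i => (prodHom fun b : Fin m => PiTensorProduct.singleAlgHom (R := k)
    (A := fun _ : Fin (j * m) => A) (finProdFinEquiv (i, b))).comp γ,
    surjective_of_single _ fun t a => ?_⟩
  obtain ⟨⟨i, b⟩, rfl⟩ := finProdFinEquiv.surjective t
  obtain ⟨g, hg⟩ := hγ (PiTensorProduct.singleAlgHom (R := k) (A := fun _ : Fin m => A) b a)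
  refine ⟨PiTensorProduct.singleAlgHom (R := k) (A := fun _ : Fin j => G) i g, ?_⟩
  rw [prodHom_single, AlgHom.comp_apply, hg, prodHom_single]

/-- `⨂^(n+1) A → A ⊗ ⨂^n A` -/
theorem exists_surjective_succ (n : ℕ) :
    ∃ F : (⨂[k] _ : Fin (n + 1), A) →ₐ[k] A ⊗[k] (⨂[k] _ : Fin n, A), Function.Surjective F := by
  refine ⟨prodHom (Fin.cons (α := fun _ => A →ₐ[k] A ⊗[k] (⨂[k] _ : Fin n, A))
    Algebra.TensorProduct.includeLeft
    (fun i => (Algebra.TensorProduct.includeRight).comp (PiTensorProduct.singleAlgHom (R := k)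
      (A := fun _ : Fin n => A) i))), ?_⟩
  intro z
  induction z using TensorProduct.induction_on with
  | zero => exact ⟨0, map_zero _⟩
  | add x y hx hy =>
    obtain ⟨x', rfl⟩ := hx
    obtain ⟨y', rfl⟩ := hy
    exact ⟨x' + y', map_add _ _ _⟩
  | tmul a w =>
    induction w using PiTensorProduct.induction_on with
    | smul_tprod r x =>
      refine ⟨r • PiTensorProduct.tprod k (Fin.cons (α := fun _ => A) a x), ?_⟩
      rw [map_smul, prodHom_tprod, Fin.prod_univ_succ]
      simp only [Fin.cons_zero, Fin.cons_succ, AlgHom.comp_apply]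
      rw [← map_prod]
      simp only [PiTensorProduct.singleAlgHom_apply, MonoidHom.mulSingle_apply]
      rw [← PiTensorProduct.tprod_prod, Finset.univ_prod_mulSingle]
      simp
    | add x y hx hy =>
      obtain ⟨x', hx⟩ := hx
      obtain ⟨y', hy⟩ := hy
      exact ⟨x' + y', by rw [map_add, hx, hy, TensorProduct.tmul_add]⟩

end maps

section aug

variable (k : Type*) [Field k] (A : Type*) [CommRing A] [Algebra k A]

/-- `A` has a `k`-point with nilpotent ideal. -/
def Aug (c : ℕ) : Prop := ∃ α : A →ₐ[k] k, RingHom.ker α ^ c = ⊥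

variable {k A} {B : Type*} [CommRing B] [Algebra k B] {c c' : ℕ}

theorem Aug.tensor (hA : Aug k A c) (hB : Aug k B c') : Aug k (A ⊗[k] B) (c + c') := by
  obtain ⟨α, hα⟩ := hA
  obtain ⟨β, hβ⟩ := hB
  refine ⟨Algebra.TensorProduct.productMap α β, ?_⟩
  set I : Ideal (A ⊗[k] B) := (RingHom.ker α).map (Algebra.TensorProduct.includeLeft (R := k)
    (S := k) (A := A) (B := B)) with hI
  set J : Ideal (A ⊗[k] B) := (RingHom.ker β).map (Algebra.TensorProduct.includeRight (R := k)
    (A := A) (B := B)) with hJ
  have h1 : ∀ z : A ⊗[k] B,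
      z - algebraMap k _ (Algebra.TensorProduct.productMap α β z) ∈ I ⊔ J := by
    intro z
    induction z using TensorProduct.induction_on with
    | zero => simp
    | add x y hx hy =>
      have := add_mem hx hy
      rw [map_add, map_add]
      convert! this using 1
      ring
    | tmul a b =>
      have ha : a - algebraMap k A (α a) ∈ RingHom.ker α := by
        rw [RingHom.mem_ker, map_sub, AlgHom.commutes]; simp
      have hb : b - algebraMap k B (β b) ∈ RingHom.ker β := by
        rw [RingHom.mem_ker, map_sub, AlgHom.commutes]; simp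
      have ha' := Ideal.mem_map_of_mem (Algebra.TensorProduct.includeLeft (R := k)
        (S := k) (A := A) (B := B)) ha
      have hb' := Ideal.mem_map_of_mem (Algebra.TensorProduct.includeRight (R := k)
        (A := A) (B := B)) hb
      rw [← hI] at ha'
      rw [← hJ] at hb'
      have h2 : a ⊗ₜ[k] b - algebraMap k (A ⊗[k] B) (Algebra.TensorProduct.productMap α β
          (a ⊗ₜ[k] b)) =
          Algebra.TensorProduct.includeRight (R := k) (A := A) (B := B) b *
            Algebra.TensorProduct.includeLeft (R := k) (S := k) (A := A) (B := B)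
              (a - algebraMap k A (α a)) +
          algebraMap k (A ⊗[k] B) (α a) * Algebra.TensorProduct.includeRight (R := k) (A := A)
              (B := B) (b - algebraMap k B (β b)) := by
        rw [map_sub, map_sub, AlgHom.commutes, AlgHom.commutes, mul_sub, mul_sub,
          Algebra.TensorProduct.productMap_apply_tmul, ← map_mul]
        have h3 : Algebra.TensorProduct.includeRight (R := k) (A := A) (B := B) b *
            Algebra.TensorProduct.includeLeft (R := k) (S := k) (A := A) (B := B) a =
            a ⊗ₜ[k] b := by simp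
        rw [h3]
        ring
      rw [h2]
      exact add_mem (Ideal.mul_mem_left _ _ (Ideal.mem_sup_left ha'))
        (Ideal.mul_mem_left _ _ (Ideal.mem_sup_right hb'))
  have h2 : RingHom.ker (Algebra.TensorProduct.productMap α β) ≤ I ⊔ J := by
    intro z hz
    have := h1 z
    rw [RingHom.mem_ker.mp hz, map_zero, sub_zero] at this
    exact this
  rw [← le_bot_iff]
  calc RingHom.ker (Algebra.TensorProduct.productMap α β) ^ (c + c') ≤ (I ⊔ J) ^ (c + c') :=
        Ideal.pow_right_mono h2 _
    _ ≤ I ^ c ⊔ J ^ c' := Ideal.sup_pow_add_le_pow_sup_pow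
    _ = ⊥ := by
        rw [hI, hJ, ← Ideal.map_pow, ← Ideal.map_pow, hα, hβ, Ideal.map_bot, Ideal.map_bot,
          sup_bot_eq]

theorem Aug.of_surjective (hA : Aug k A c) (f : A →ₐ[k] B) (hf : Function.Surjective f)
    (β : B →ₐ[k] k) : Aug k B c := by
  obtain ⟨α, hα⟩ := hA
  refine ⟨β, ?_⟩
  have h1 : RingHom.ker β = (RingHom.ker α).map f := by
    have h2 : RingHom.ker α ≤ RingHom.ker (β.comp f) := by
      intro a ha
      by_contra hne
      have h3 : IsNilpotent a := by
        refine ⟨c, ?_⟩
        have := Ideal.pow_mem_pow ha c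
        rw [hα] at this
        simpa using this
      exact hne (h3.map (β.comp f)).eq_zero
    apply le_antisymm
    · intro b hb
      obtain ⟨a, rfl⟩ := hf b
      have h4 : a - algebraMap k A (α a) ∈ RingHom.ker α := by
        rw [RingHom.mem_ker, map_sub, AlgHom.commutes]; simp
      have h5 := h2 h4
      rw [RingHom.mem_ker, AlgHom.comp_apply, map_sub, map_sub, AlgHom.commutes,
        AlgHom.commutes, RingHom.mem_ker.mp hb, zero_sub, neg_eq_zero] at h5
      have h6 : α a = 0 := by simpa using h5
      exact Ideal.mem_map_of_mem f (RingHom.mem_ker.mpr h6)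
    · rw [Ideal.map_le_iff_le_comap]
      intro a ha
      exact h2 ha
  rw [h1, ← Ideal.map_pow, hα, Ideal.map_bot]

end aug

section augpow

universe u

variable {k : Type u} [Field k] {A : Type u} [CommRing A] [Algebra k A] {c : ℕ}

/-- the point of the power -/
noncomputable def powPt (α : A →ₐ[k] k) (n : ℕ) : (⨂[k] _ : Fin n, A) →ₐ[k] k :=
  prodHom fun _ => α

theorem exists_eq_algebraMap (z : ⨂[k] _ : Fin 0, A) : ∃ r : k, algebraMap k _ r = z := by
  induction z using PiTensorProduct.induction_on with
  | smul_tprod r f =>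
    refine ⟨r, ?_⟩
    rw [Algebra.algebraMap_eq_smul_one, PiTensorProduct.one_def]
    congr 1
    congr 1
    exact Subsingleton.elim _ _
  | add x y hx hy =>
    obtain ⟨x', rfl⟩ := hx
    obtain ⟨y', rfl⟩ := hy
    exact ⟨x' + y', map_add _ _ _⟩

theorem Aug.pow (hA : Aug k A c) (n : ℕ) : Aug k (⨂[k] _ : Fin n, A) (n * c + 1) := by
  obtain ⟨α, hα⟩ := id hA
  induction n with
  | zero =>
    refine ⟨powPt α 0, ?_⟩
    rw [zero_mul, zero_add, pow_one, eq_bot_iff]
    intro z hz
    obtain ⟨r, rfl⟩ := exists_eq_algebraMap z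
    rw [RingHom.mem_ker, AlgHom.commutes] at hz
    have : r = 0 := hz
    rw [this, map_zero]
    exact zero_mem _
  | succ n ih =>
    have := (hA.tensor ih).of_surjective (consHom k A n) (consHom_surjective n) (powPt α (n + 1))
    rwa [show c + (n * c + 1) = (n + 1) * c + 1 by ring] at this

end augpow

end Pool.Agent.H14.RF
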